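import Pool.Agent.R795.ML.Graph

/-!
# A tree-like graph with uncountable motion which is not 2-distinguishable

Let `κ` be the successor of the continuum and let `L` be the linear order of all sign sequences of
length less than `κ` (with the lexicographic order). Cuts of `L` given by fewer than `κ` points are
filled. Given a colouring of `L` with at most continuum many colours there is an interval in which
each colour is absent or dense, and a back and forth construction which treats all gaps of a partial
isomorphism at the same time gives a nontrivial colour preserving automorphism of `L`.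

The graph has a root `w`, vertices `a_x`, `b_x` for `x` in `L`, an edge from `w` to each `a_x`, an
edge from `a_x` to `b_y` whenever `x ≤ y`, and a ray attached at each `a_x` and at each `b_x`. It is
tree-like, its automorphisms are those of `L`, and each nontrivial one moves at least `κ` vertices,
while the graph has at most `2 ^ κ` vertices.
-/

set_option autoImplicit false

open Cardinal Set

namespace Pool.Agent.Results.MP_53e992_co.UncountableMotion

/-- The rooted graph `(G, w)` is tree-like: distances to `w` are finite (the graph is connected) and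
every vertex `y` has a neighbour `x` such that `y` lies on every shortest path from `x` to `w`. -/
def TreeLike {V : Type} (G : SimpleGraph V) (w : V) : Prop :=
  G.Connected ∧ ∀ y, ∃ x, G.Adj y x ∧ ∀ p : G.Walk x w, p.length = G.dist x w → y ∈ p.support

/-- The motion: the least number of vertices moved by a nonidentity automorphism. -/
noncomputable def motion {V : Type} (G : SimpleGraph V) : Cardinal :=
  sInf {c | ∃ φ : G ≃g G, φ ≠ RelIso.refl _ ∧ c = #{v | φ v ≠ v}}

/-- The supremum of the degrees. -/
noncomputable def maxDegree {V : Type} (G : SimpleGraph V) : Cardinal :=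
  ⨆ v, #(G.neighborSet v)

/-- `S` is a distinguishing set: only the identity automorphism maps `S` onto itself. -/
def Distinguishing {V : Type} (G : SimpleGraph V) (S : Set V) : Prop :=
  ∀ φ : G ≃g G, φ '' S = S → φ = RelIso.refl _

open Pool.Agent.R795.ML Pool.Agent.R795.ML.Vt

/-- There is an uncountable cardinal `m` and a tree-like graph of motion `m` and maximum degree at
most `2 ^ m` which has no distinguishing set. -/
theorem result : ∃ m : Cardinal, ℵ₀ < m ∧ ∃ (V : Type) (G : SimpleGraph V) (w : V),
    TreeLike G w ∧ motion G = m ∧ maxDegree G ≤ 2 ^ m ∧ ∀ S : Set V, ¬ Distinguishing G S := by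
  set κ : Cardinal := Order.succ (2 ^ ℵ₀) with hκdef
  have hκ1 : ℵ₀ < κ := (cantor ℵ₀).trans (Order.lt_succ _)
  have hreg : κ.IsRegular := isRegular_succ (cantor ℵ₀).le
  obtain ⟨L, W, iL, iW, wf, ρ, hW, hfill, hρ, hcard⟩ := exists_order κ hreg
  have hfill' : Fills L κ := hfill
  obtain ⟨x0, _, _⟩ := hfill ∅ ∅ (by simpa using aleph0_pos.trans hκ1)
    (by simpa using aleph0_pos.trans hκ1) (by simp)
  have : Nonempty L := ⟨x0⟩
  have hnd : ∀ S : Set (Vt L), ∃ φ : Gr L ≃g Gr L, φ ≠ RelIso.refl _ ∧ φ '' S = S := by
    intro S
    obtain ⟨g, ⟨x, hx⟩, hg⟩ := auto_color (κ := κ) (ρ := ρ) hκ1 hW hfill' hρ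
      (C := Set (Bool × ℕ)) (by
        rw [mk_set]
        refine (power_le_power_left two_ne_zero ?_).trans_lt (Order.lt_succ _)
        exact mk_le_aleph0) (fun x => {q | node q.1 x q.2 ∈ S})
    have hmem : ∀ v, lift g v ∈ S ↔ v ∈ S := by
      intro v
      cases v with
      | root => exact Iff.rfl
      | node s x n =>
        rw [lift_node]
        have := Set.ext_iff.mp (hg x) (s, n)
        exact this
    refine ⟨lift g, ?_, ?_⟩
    · intro h
      have h1 : lift g (node false x 0) = node false x 0 := by
        rw [h]
        rfl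
      rw [lift_node] at h1
      simp only [node.injEq, true_and, and_true] at h1
      exact hx h1
    · ext v
      constructor
      · rintro ⟨u, hu, rfl⟩
        exact (hmem u).mpr hu
      · intro hv
        refine ⟨(lift g).symm v, ?_, by simp⟩
        rw [← hmem, RelIso.apply_symm_apply]
        exact hv
  have hm : κ ≤ motion (Gr L) := by
    refine le_csInf ?_ ?_
    · obtain ⟨φ, h1, _⟩ := hnd ∅
      exact ⟨_, φ, h1, rfl⟩
    · rintro c ⟨φ, h1, rfl⟩
      exact moved_ge hκ1 hfill' φ h1
  refine ⟨motion (Gr L), hκ1.trans_le hm, Vt L, Gr L, root, ⟨connected, ?_⟩, rfl, ?_, ?_⟩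
  · intro y
    cases y with
    | root => exact ⟨node false x0 0, adj_root.mpr ⟨x0, rfl⟩, fun p _ => p.end_mem_support⟩
    | node s x n =>
      exact ⟨node s x (n + 1), adj_ray s x n,
        fun p _ => walk_through p rfl ⟨n + 1, Nat.lt_succ_self n, rfl⟩⟩
  · refine ciSup_le' fun v => ?_
    have h1 : #(Vt L) ≤ 2 ^ κ := by
      have h2 : #(Vt L) ≤ #(Option (Bool × L × ℕ)) := by
        refine mk_le_of_injective (f := fun v => match v with
          | root => none
          | node s x n => some (s, x, n)) ?_
        intro u v huv
        cases u <;> cases v <;> simp_all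
      refine h2.trans ?_
      rw [mk_option, mk_prod, mk_prod]
      simp only [lift_id, mk_bool, mk_nat]
      have hinf : ℵ₀ ≤ 2 ^ κ := hκ1.le.trans (cantor κ).le
      have h3 : #L * ℵ₀ ≤ 2 ^ κ := by
        calc #L * ℵ₀ ≤ 2 ^ κ * 2 ^ κ := mul_le_mul' hcard hinf
          _ = 2 ^ κ := mul_eq_self hinf
      have h4 : 2 * (#L * ℵ₀) ≤ 2 ^ κ := by
        calc 2 * (#L * ℵ₀) ≤ 2 ^ κ * 2 ^ κ := mul_le_mul' (((natCast_lt_aleph0 (n := 2)).le).trans hinf) h3
          _ = 2 ^ κ := mul_eq_self hinf
      calc 2 * (#L * ℵ₀) + 1 ≤ 2 ^ κ + 2 ^ κ := add_le_add h4 (one_lt_aleph0.le.trans hinf)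
        _ = 2 ^ κ := add_eq_self hinf
    exact (mk_set_le _).trans (h1.trans (power_le_power_left two_ne_zero hm))
  · intro S hS
    obtain ⟨φ, h1, h2⟩ := hnd S
    exact h1 (hS φ h2)

end Pool.Agent.Results.MP_53e992_co.UncountableMotion
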